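import Pool.Agent.helper71.LVR.Final

/-!
# Lipschitz submanifolds with intrinsic metric need not be Lipschitz-volume rigid

The definitions (metric currents, mass, integral currents, integral current spaces, intrinsic
metric, Lipschitz charts, integration currents, Lipschitz-volume rigidity) are in
`Pool/Agent/helper71/LVR/Defs.lean`.

The example: `Y ⊆ ℝ³` is the graph over the square `[-1, 1]²` of a Lipschitz function `F` which
vanishes on the diagonal and is almost everywhere locally affine with gradient `(± 3/4, 0)` or
`(0, ± 3/4)`.  The diagonal segment is a shortcut for the intrinsic metric which is invisible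
almost everywhere: with `ψ(x) = (3/4) max(0, 1 - |x₀| - |x₁|)`, the distance
`d_X = max(d_Y, |ψ - ψ|)` agrees with `d_Y` locally around almost every point and on the
boundary, but `d_X > d_Y` for the two points `(0, 0)` and `(1/2, 1/2)` of the diagonal.
-/

open Pool.Agent.helper71.LVR

namespace Pool.Agent.Results.MP_f51a17_gt.NotRigid

/-- There is a compact connected subset `Y` of `ℝ³`, which is an oriented `2`-dimensional
Lipschitz manifold with boundary with current of integration `T = ⟦Y⟧` (an integral current for
the intrinsic metric of `Y`), such that `Y` with its intrinsic metric does not have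
Lipschitz-volume rigidity among integral current spaces. -/
theorem result : ∃ (Y : Set (EuclideanSpace ℝ (Fin 3)))
    (T : MetricFunctional 2 (Intrinsic Y)), IsCompact Y ∧ IsConnected Y ∧
      IsIntegrationCurrent Y T ∧ IsIntegralCurrent (n := 1) T ∧
      ¬ HasLipschitzVolumeRigidity (n := 1) Y T :=
  exists_not_rigid

end Pool.Agent.Results.MP_f51a17_gt.NotRigid
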